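import Pool.Agent.L0h77.MO.Stm2

/-! Project MO (helper77), module GRW (by helper85): a free submonoid gives exponential growth -/

set_option autoImplicit false

namespace Pool.Agent.L0h85.MO

open Pool.Agent.L0h77.MO

section

variable {G : Type} [Group G]

theorem ball_finite (S : Finset G) (r : ℕ) : (ball S r).Finite := by
  have hA : ({x : G | x ∈ S ∨ x⁻¹ ∈ S} : Set G).Finite := by
    have h1 : ({x : G | x ∈ S ∨ x⁻¹ ∈ S} : Set G) = (S : Set G) ∪ (fun x => x⁻¹) '' (S : Set G) := by
      ext x
      constructor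
      · rintro (h | h)
        · exact Or.inl h
        · exact Or.inr ⟨x⁻¹, h, inv_inv x⟩
      · rintro (h | ⟨y, h, rfl⟩)
        · exact Or.inl h
        · exact Or.inr (by simpa using h)
    rw [h1]
    exact S.finite_toSet.union (S.finite_toSet.image _)
  have : Finite {x : G | x ∈ S ∨ x⁻¹ ∈ S} := hA
  have h2 := List.finite_length_le {x : G | x ∈ S ∨ x⁻¹ ∈ S} r
  refine (h2.image fun l => (l.map Subtype.val).prod).subset ?_
  rintro g ⟨w, hw, hS, rfl⟩
  refine ⟨w.attach.map fun x => ⟨x.1, hS x.1 x.2⟩, ?_, ?_⟩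
  · show (List.map _ _).length ≤ r
    rw [List.length_map, List.length_attach]
    exact hw
  · show (List.map _ (List.map _ _)).prod = _
    rw [List.map_map]
    congr 1
    exact List.attach_map_subtype_val w

theorem ball_mono (S : Finset G) {r r' : ℕ} (h : r ≤ r') : ball S r ⊆ ball S r' := by
  rintro g ⟨w, hw, hS, rfl⟩
  exact ⟨w, hw.trans h, hS, rfl⟩

theorem growth_mono (S : Finset G) {r r' : ℕ} (h : r ≤ r') : growth S r ≤ growth S r' :=
  Nat.card_mono (ball_finite S r') (ball_mono S h)

theorem ball_mul (S : Finset G) {r r' : ℕ} {g g' : G} (h : g ∈ ball S r) (h' : g' ∈ ball S r') :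
    g * g' ∈ ball S (r + r') := by
  obtain ⟨w, hw, hS, rfl⟩ := h
  obtain ⟨w', hw', hS', rfl⟩ := h'
  refine ⟨w ++ w', ?_, ?_, List.prod_append⟩
  · rw [List.length_append]
    exact Nat.add_le_add hw hw'
  · intro x hx
    rcases List.mem_append.1 hx with h | h
    · exact hS x h
    · exact hS' x h

theorem one_mem_ball (S : Finset G) (r : ℕ) : (1 : G) ∈ ball S r :=
  ⟨[], Nat.zero_le _, fun _ h => absurd h List.not_mem_nil, rfl⟩

theorem exists_ball (S : Finset G) (hS : Subgroup.closure (S : Set G) = ⊤) (g : G) :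
    ∃ r, g ∈ ball S r := by
  have hg : g ∈ (Subgroup.closure (S : Set G)).toSubmonoid := by rw [hS]; trivial
  rw [Subgroup.closure_toSubmonoid] at hg
  obtain ⟨l, hl, rfl⟩ := Submonoid.exists_list_of_mem_closure hg
  exact ⟨l.length, l, le_rfl, fun x hx => (hl x hx).imp id id, rfl⟩

theorem word_ball (S : Finset G) {L : ℕ} {x y : G} (hx : x ∈ ball S L) (hy : y ∈ ball S L)
    (l : List (Fin 2)) : FreeMonoid.lift ![x, y] (FreeMonoid.ofList l) ∈ ball S (L * l.length) := by
  induction l with
  | nil => exact one_mem_ball S _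
  | cons a l ih =>
    have e : FreeMonoid.lift ![x, y] (FreeMonoid.ofList (a :: l)) =
        ![x, y] a * FreeMonoid.lift ![x, y] (FreeMonoid.ofList l) := by
      rw [FreeMonoid.lift_ofList, FreeMonoid.lift_ofList, List.map_cons, List.prod_cons]
    rw [e, List.length_cons, Nat.mul_succ, add_comm]
    refine ball_mul S ?_ ih
    fin_cases a
    · exact hx
    · exact hy

theorem two_pow_le (S : Finset G) {L : ℕ} {x y : G} (hx : x ∈ ball S L) (hy : y ∈ ball S L)
    (hinj : Function.Injective (FreeMonoid.lift ![x, y])) (n : ℕ) : 2 ^ n ≤ growth S (L * n) := by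
  have h1 : Nat.card (Fin n → Fin 2) = 2 ^ n := by simp
  rw [← h1]
  have : Finite (ball S (L * n)) := ball_finite S _
  refine Nat.card_le_card_of_injective (fun f : Fin n → Fin 2 =>
    (⟨FreeMonoid.lift ![x, y] (FreeMonoid.ofList (List.ofFn f)), ?_⟩ : ball S (L * n))) ?_
  · have := word_ball S hx hy (List.ofFn f)
    rwa [List.length_ofFn] at this
  · intro f f' h
    have h2 := hinj (congrArg Subtype.val h)
    have h3 : List.ofFn f = List.ofFn f' := FreeMonoid.ofList.injective h2
    exact List.ofFn_injective h3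

end

theorem GRW : S_GRW := by
  intro G _ _ S hS x y hinj
  obtain ⟨r₁, h₁⟩ := exists_ball S hS x
  obtain ⟨r₂, h₂⟩ := exists_ball S hS y
  obtain ⟨L, hL1, hx, hy⟩ : ∃ L : ℕ, 1 ≤ L ∧ x ∈ ball S L ∧ y ∈ ball S L :=
    ⟨1 + r₁ + r₂, by omega, ball_mono S (by omega) h₁, ball_mono S (by omega) h₂⟩
  have hlog : 0 < Real.log 2 := Real.log_pos (by norm_num)
  have hL0 : (0 : ℝ) < L := by exact_mod_cast hL1
  -- two elements in the ball of radius one
  have htwo : 2 ≤ growth S 1 := by
    obtain ⟨s, hs, hs1⟩ : ∃ s ∈ S, s ≠ 1 := by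
      by_contra hcon
      push Not at hcon
      have h3 : Subgroup.closure (S : Set G) = ⊥ := by
        rw [Subgroup.closure_eq_bot_iff]
        intro s hs
        exact hcon s hs
      rw [h3] at hS
      have h4 : Subsingleton G := by
        refine ⟨fun a b => ?_⟩
        have ha : a ∈ (⊥ : Subgroup G) := by rw [hS]; trivial
        have hb : b ∈ (⊥ : Subgroup G) := by rw [hS]; trivial
        rw [Subgroup.mem_bot.1 ha, Subgroup.mem_bot.1 hb]
      exact not_subsingleton G h4
    have hsub : ({1, s} : Set G) ⊆ ball S 1 := by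
      rintro g (h | h)
      · rw [h]; exact one_mem_ball S 1
      · rw [Set.mem_singleton_iff] at h
        rw [h]
        exact ⟨[s], le_rfl, fun a ha => Or.inl (by rw [List.mem_singleton.1 ha]; exact hs),
          List.prod_singleton⟩
    have h5 := Nat.card_mono (ball_finite S 1) hsub
    have h6 : Nat.card ({1, s} : Set G) = 2 := by
      rw [Nat.card_coe_set_eq, Set.ncard_pair (Ne.symm hs1)]
    rw [h6] at h5
    exact h5
  refine ⟨Real.log 2 / (2 * L), by positivity, fun r => ?_⟩
  by_cases hr : r < L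
  · rcases Nat.eq_zero_or_pos r with h0 | h0
    · subst h0
      have h7 : 1 ≤ growth S 0 := by
        have : Finite (ball S 0) := ball_finite S 0
        have : Nonempty (ball S 0) := ⟨⟨1, one_mem_ball S 0⟩⟩
        exact Nat.card_pos
      rw [Nat.cast_zero, mul_zero, Real.exp_zero]
      exact_mod_cast h7
    · have h8 : (2 : ℝ) ≤ (growth S r : ℝ) := by
        exact_mod_cast htwo.trans (growth_mono S h0)
      refine le_trans ?_ h8
      have h9 : Real.log 2 / (2 * L) * r ≤ Real.log 2 := by
        have h10 : (r : ℝ) ≤ L := by exact_mod_cast hr.le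
        rw [div_mul_eq_mul_div, div_le_iff₀ (by positivity)]
        nlinarith
      calc Real.exp (Real.log 2 / (2 * L) * r) ≤ Real.exp (Real.log 2) := Real.exp_le_exp.2 h9
        _ = 2 := Real.exp_log (by norm_num)
  · have hn : 1 ≤ r / L := (Nat.one_le_div_iff hL1).2 (not_lt.1 hr)
    have h11 : (2 : ℝ) ^ (r / L) ≤ (growth S r : ℝ) := by
      have := (two_pow_le S hx hy hinj (r / L)).trans (growth_mono S (Nat.mul_div_le r L))
      exact_mod_cast this
    refine le_trans ?_ h11
    have h12 : r < L * (r / L + 1) := Nat.lt_mul_div_succ r hL1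
    have h13 : (r : ℝ) ≤ L * ((r / L : ℕ) + 1) := by exact_mod_cast h12.le
    have h14 : (1 : ℝ) ≤ ((r / L : ℕ) : ℝ) := by exact_mod_cast hn
    have h15 : Real.log 2 / (2 * L) * r ≤ ((r / L : ℕ) : ℝ) * Real.log 2 := by
      rw [div_mul_eq_mul_div, div_le_iff₀ (by positivity)]
      have h16 : (r : ℝ) ≤ L * (2 * ((r / L : ℕ) : ℝ)) :=
        h13.trans (mul_le_mul_of_nonneg_left (by linarith) hL0.le)
      nlinarith
    calc Real.exp (Real.log 2 / (2 * L) * r) ≤ Real.exp (((r / L : ℕ) : ℝ) * Real.log 2) :=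
          Real.exp_le_exp.2 h15
      _ = 2 ^ (r / L) := by rw [Real.exp_nat_mul, Real.exp_log (by norm_num)]

end Pool.Agent.L0h85.MO
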